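import Pool.Agent.Run7.h824.TC.Tw

/-!
# Objects with Lefschetz isomorphisms are direct sums (piece CK2 of project TC)
-/

set_option autoImplicit false
set_option linter.unusedSectionVars false
set_option linter.unusedSimpArgs false
set_option backward.isDefEq.respectTransparency false
set_option backward.defeqAttrib.useBackward true

open CategoryTheory Limits MonoidalCategory Pretriangulated Triangulated

namespace Run7.h824.TC

open Pool.Agent.Y116.MT Pool.Agent.V1178.MT Run7.h822.MT Run7.h985.TC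

universe v u w

section

variable {C : Type u} [Category.{v} C] [Preadditive C]

/-- Splitting off a direct summand. -/
lemma split_off [IsIdempotentComplete C] {A X : C} (i : A ⟶ X) (r : X ⟶ A) (h : i ≫ r = 𝟙 A) :
    ∃ (X' : C) (j : X' ⟶ X) (q : X ⟶ X'), j ≫ q = 𝟙 X' ∧ r ≫ i + q ≫ j = 𝟙 X ∧ i ≫ q = 0 ∧
      j ≫ r = 0 := by
  obtain ⟨X', j, q, h1, h2⟩ := IsIdempotentComplete.idempotents_split X (𝟙 X - r ≫ i) (by
    have h3 : (r ≫ i) ≫ (r ≫ i) = r ≫ i := by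
      rw [Category.assoc, ← Category.assoc i r i, h, Category.id_comp]
    simp only [Preadditive.sub_comp, Preadditive.comp_sub, h3, Category.id_comp,
      Category.comp_id, sub_self, sub_zero])
  refine ⟨X', j, q, h1, by rw [h2, add_sub_cancel], ?_, ?_⟩
  · have h3 : i ≫ q ≫ j = 0 := by
      rw [h2, Preadditive.comp_sub, Category.comp_id, ← Category.assoc, h, Category.id_comp,
        sub_self]
    calc i ≫ q = (i ≫ q ≫ j) ≫ q := by rw [Category.assoc, Category.assoc, h1, Category.comp_id]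
      _ = 0 := by rw [h3, zero_comp]
  · have h3 : (q ≫ j) ≫ r = 0 := by
      rw [h2, Preadditive.sub_comp, Category.id_comp, Category.assoc, h, Category.comp_id,
        sub_self]
    calc j ≫ r = (j ≫ q) ≫ j ≫ r := by rw [h1, Category.id_comp]
      _ = j ≫ (q ≫ j) ≫ r := by simp only [Category.assoc]
      _ = 0 := by rw [h3, comp_zero]

end

section

variable {C : Type u} [Category.{v} C] [Preadditive C] [HasZeroObject C] [HasShift C ℤ]
  [∀ n : ℤ, (shiftFunctor C n).Additive] [Pretriangulated C] [MonoidalCategory C]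
  [SymmetricCategory C] [TensorTriangulated C] {E : Type w} [Field E] {R : Realisation C E}

lemma hmap_comp {X Y Z : C} (f : X ⟶ Y) (g : Y ⟶ Z) (n : ℤ) :
    R.H.map ((f ≫ g)⟦n⟧') = R.H.map (f⟦n⟧') ≫ R.H.map (g⟦n⟧') := by
  rw [Functor.map_comp, Functor.map_comp]

lemma hmap_id (X : C) (n : ℤ) : R.H.map ((𝟙 X)⟦n⟧') = 𝟙 _ := by
  rw [CategoryTheory.Functor.map_id, CategoryTheory.Functor.map_id]

/-- The complement of a summand without cohomology in degree `n`. -/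
lemma iso_of_split {A X X' : C} (i : A ⟶ X) (r : X ⟶ A) (j : X' ⟶ X) (q : X ⟶ X')
    (h1 : j ≫ q = 𝟙 X') (h2 : r ≫ i + q ≫ j = 𝟙 X) (n : ℤ) (hA : IsZero (R.H.obj (A⟦n⟧))) :
    IsIso (R.H.map (j⟦n⟧')) ∧ IsIso (R.H.map (q⟦n⟧')) := by
  have e1 : R.H.map (j⟦n⟧') ≫ R.H.map (q⟦n⟧') = 𝟙 _ := by rw [← hmap_comp, h1, hmap_id]
  have e2 : R.H.map (q⟦n⟧') ≫ R.H.map (j⟦n⟧') = 𝟙 _ := by
    have h3 : R.H.map ((r ≫ i + q ≫ j)⟦n⟧') = 𝟙 _ := by rw [h2, hmap_id]
    rw [Functor.map_add, Functor.map_add, hmap_comp, hmap_comp,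
      hA.eq_of_tgt (R.H.map (r⟦n⟧')) 0, zero_comp, zero_add] at h3
    exact h3
  exact ⟨⟨_, e1, e2⟩, ⟨_, e2, e1⟩⟩

lemma zero_of_retract {X Y : C} (i : Y ⟶ X) (r : X ⟶ Y) (h : i ≫ r = 𝟙 Y) (n : ℤ)
    (h0 : R.H.map (i⟦n⟧') = 0 ∨ R.H.map (r⟦n⟧') = 0) : IsZero (R.H.obj (Y⟦n⟧)) := by
  rw [IsZero.iff_id_eq_zero, ← hmap_id, ← h, hmap_comp]
  rcases h0 with h0 | h0
  · rw [h0, zero_comp]
  · rw [h0, comp_zero]

variable [MonoidalPreadditive C] [RightRigidCategory C] {t : TStructure C}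

/-- The lowest and the highest cohomology of `X`. -/
lemma ends (hR : CE t R) (X : C) (p q : ℤ)
    (hX : ∀ i : ℤ, (i < p ∨ q < i) → IsZero (R.H.obj (X⟦i⟧))) :
    ∃ (A : C) (iA : A ⟶ X) (B : C) (pB : X ⟶ B), R.Deg A p ∧ R.Deg B q ∧
      IsIso (R.H.map (iA⟦p⟧')) ∧ IsIso (R.H.map (pB⟦q⟧')) := by
  refine ⟨(t.truncLE p).obj X, (t.truncLEι p).app X, (t.truncGE q).obj X, (t.truncGEπ q).app X,
    ?_, ?_, iso_le hR.ex X p le_rfl, iso_ge hR.ex X q le_rfl⟩
  · intro i hi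
    rcases lt_or_gt_of_ne hi with h1 | h1
    · have := iso_le hR.ex (t := t) X p (i := i) h1.le
      exact (hX i (Or.inl h1)).of_iso (asIso (R.H.map (((t.truncLEι p).app X)⟦i⟧')))
    · exact hR.ex.isLE (n := p) inferInstance i h1
  · intro i hi
    rcases lt_or_gt_of_ne hi with h1 | h1
    · exact hR.ex.isGE (n := q) inferInstance i h1
    · have := iso_ge hR.ex (t := t) X q (i := i) h1.le
      exact (hX i (Or.inr h1)).of_iso (asIso (R.H.map (((t.truncGEπ q).app X)⟦i⟧'))).symm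

lemma orth (hR : CE t R) {A B : C} {p q : ℤ} (hA : R.Deg A p) (hB : R.Deg B q) (h : p < q)
    (f : A ⟶ B) : f = 0 :=
  t.zero_of_isLE_of_isGE f p q h (hR.conc hA).1 (hR.conc hB).2

variable [IsTriangulated C] [IsIdempotentComplete C]

theorem sum_of_lefschetz (hR : CE t R) {T T' : C} (eT : T ⊗ T' ≅ 𝟙_ C) (hT : R.Deg T (-2))
    (e : ℤ) (K : ℕ) : ∀ X : C, (∀ i : ℤ, (i < e - K ∨ e + K < i) → IsZero (R.H.obj (X⟦i⟧))) →
      (∀ k : ℕ, ∃ L : X ⟶ twist T X k, IsIso (R.H.map (L⟦e - k⟧'))) → IsSum R X := by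
  induction K with
  | zero =>
    intro X hX _
    exact IsSum.one e fun i hi => hX i (by push_cast; omega)
  | succ K ih =>
    intro X hX hL
    obtain ⟨A, iA, B, pB, hA, hB, hiA, hpB⟩ :=
      ends hR X (e - ((K + 1 : ℕ) : ℤ)) (e + ((K + 1 : ℕ) : ℤ)) hX
    obtain ⟨L, hL0⟩ := hL (K + 1)
    have hBt : R.Deg (twist T B (K + 1)) (e - ((K + 1 : ℕ) : ℤ)) :=
      deg_twist hT hB (K + 1) _ (by ring)
    have hpt : IsIso (R.H.map ((twMap T pB (K + 1))⟦e - ((K + 1 : ℕ) : ℤ)⟧')) :=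
      iso_twMap hT pB (K + 1) _ _ (by ring) hpB
    have hθ : IsIso (iA ≫ L ≫ twMap T pB (K + 1)) :=
      isIso_of_conc hR (hR.conc hA) (hR.conc hBt) _ (by
        rw [hmap_comp, hmap_comp]
        infer_instance)
    -- `A` is a summand
    have hAr : iA ≫ (L ≫ twMap T pB (K + 1) ≫ inv (iA ≫ L ≫ twMap T pB (K + 1))) = 𝟙 A := by
      rw [← Category.assoc L, ← Category.assoc iA, IsIso.hom_inv_id]
    -- `B` is a summand
    obtain ⟨sB, hsB⟩ := twMap_surj eT (K + 1) (inv (iA ≫ L ≫ twMap T pB (K + 1)) ≫ iA ≫ L)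
    have hBr : sB ≫ pB = 𝟙 B := by
      apply twMap_inj eT (K + 1)
      rw [twMap_comp, hsB, twMap_id, Category.assoc, Category.assoc, IsIso.inv_hom_id]
    generalize (L ≫ twMap T pB (K + 1) ≫ inv (iA ≫ L ≫ twMap T pB (K + 1))) = rA at hAr
    have hAB : iA ≫ pB = 0 := orth hR hA hB (by push_cast; omega) _
    obtain ⟨X', j, q, hjq, hX', hiq, hjr⟩ := split_off iA rA hAr
    have hqj : q ≫ j = 𝟙 X - rA ≫ iA := by rw [← hX', add_sub_cancel_left]
    have hBr' : (sB ≫ q) ≫ (j ≫ pB) = 𝟙 B := by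
      rw [Category.assoc, ← Category.assoc q, hqj, Preadditive.sub_comp, Category.id_comp,
        Category.assoc, hAB, comp_zero, sub_zero, hBr]
    obtain ⟨X₂, j₂, q₂, hjq₂, hX₂, hiq₂, hjr₂⟩ := split_off (sB ≫ q) (j ≫ pB) hBr'
    have hir : (j₂ ≫ j) ≫ (q ≫ q₂) = 𝟙 X₂ := by
      rw [Category.assoc, ← Category.assoc j, hjq, Category.id_comp, hjq₂]
    -- the cohomology of `X₂`
    have hz : ∀ i : ℤ, (i < e - K ∨ e + K < i) → IsZero (R.H.obj (X₂⟦i⟧)) := by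
      intro i hi
      by_cases h1 : i = e - ((K + 1 : ℕ) : ℤ)
      · subst h1
        refine zero_of_retract _ _ hir _ (Or.inr ?_)
        rw [hmap_comp]
        have h2 : R.H.map (q⟦e - ((K + 1 : ℕ) : ℤ)⟧') = 0 := by
          rw [← cancel_epi (R.H.map (iA⟦e - ((K + 1 : ℕ) : ℤ)⟧')), ← hmap_comp, hiq,
            Functor.map_zero, Functor.map_zero, comp_zero]
        rw [h2, zero_comp]
      · by_cases h2 : i = e + ((K + 1 : ℕ) : ℤ)
        · subst h2
          refine zero_of_retract _ _ hir _ (Or.inl ?_)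
          rw [← cancel_mono (R.H.map (pB⟦e + ((K + 1 : ℕ) : ℤ)⟧')), ← hmap_comp,
            Category.assoc, hjr₂, Functor.map_zero, Functor.map_zero, zero_comp]
        · refine zero_of_retract _ _ hir _ (Or.inl ?_)
          have h3 : IsZero (R.H.obj (X⟦i⟧)) := hX i (by push_cast at h1 h2 ⊢; omega)
          exact h3.eq_of_tgt _ _
    have hiso : ∀ n : ℤ, n ≠ e - ((K + 1 : ℕ) : ℤ) → n ≠ e + ((K + 1 : ℕ) : ℤ) →
        IsIso (R.H.map ((j₂ ≫ j)⟦n⟧')) ∧ IsIso (R.H.map ((q ≫ q₂)⟦n⟧')) := by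
      intro n h1 h2
      obtain ⟨a1, a2⟩ := iso_of_split iA rA j q hjq hX' n (hA n h1)
      obtain ⟨b1, b2⟩ := iso_of_split (sB ≫ q) (j ≫ pB) j₂ q₂ hjq₂ hX₂ n (hB n h2)
      rw [hmap_comp, hmap_comp]
      exact ⟨inferInstance, inferInstance⟩
    have hs2 : IsSum R X₂ := by
      refine ih X₂ hz fun k => ?_
      by_cases hk : k < K + 1
      · obtain ⟨L', hL'⟩ := hL k
        refine ⟨(j₂ ≫ j) ≫ L' ≫ twMap T (q ≫ q₂) k, ?_⟩
        have h1 := (hiso (e - k) (by push_cast; omega) (by push_cast; omega)).1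
        have h2 := (hiso (e + k) (by push_cast; omega) (by push_cast; omega)).2
        have h3 := iso_twMap hT (q ≫ q₂) k (e - k) (e + k) (by ring) h2
        rw [hmap_comp (j₂ ≫ j), hmap_comp L']
        infer_instance
      · refine ⟨0, ?_⟩
        have h1 : IsZero (R.H.obj (X₂⟦e - (k : ℤ)⟧)) := hz _ (Or.inl (by omega))
        have h2 : IsZero (R.H.obj ((twist T X₂ k)⟦e - (k : ℤ)⟧)) :=
          zero_twist hT k _ (e + k) (by ring) (hz _ (Or.inr (by omega)))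
        exact ⟨0, h1.eq_of_src _ _, h2.eq_of_src _ _⟩
    exact IsSum.sum iA rA j q hAr hjq hX' (IsSum.one _ hA)
      (IsSum.sum (sB ≫ q) (j ≫ pB) j₂ q₂ hBr' hjq₂ hX₂ (IsSum.one _ hB) hs2)

end

/-- Piece CK2. -/
theorem t_CK2 : S_CK2.{v, u, w} := by
  intro C _ _ _ _ _ _ _ _ _ _ _ _ _ hid E _ R t h T T' hTT' hT X e hL
  obtain ⟨eT⟩ := hTT'
  have hR : CE t R := ⟨(truncations_of_motivic hid h).1, ⟨h.exact_le (), h.exact_ge ()⟩⟩
  obtain ⟨N, hN⟩ := R.bounded X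
  exact sum_of_lefschetz hR eT hT e (N + e.natAbs) X
    (fun i hi => hN i (by rw [Nat.cast_add] at hi; omega)) hL

end Run7.h824.TC
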