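import Pool.Agent.Run7.h985.TC.Stm

/-!
# Extension of a filtered object by an object in one degree (piece T1 of project TC)
-/

set_option autoImplicit false
set_option linter.unusedSectionVars false
set_option linter.unusedSimpArgs false
set_option backward.isDefEq.respectTransparency false
set_option backward.defeqAttrib.useBackward true

open CategoryTheory Limits MonoidalCategory Pretriangulated Triangulated

namespace Run7.h824.TC

open Pool.Agent.Y116.MT Pool.Agent.V1178.MT Run7.h822.MT Run7.h985.TC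

universe v u w

section

variable {C : Type u} [Category.{v} C] [Preadditive C] [HasZeroObject C] [HasShift C ℤ]
  [∀ n : ℤ, (shiftFunctor C n).Additive] [Pretriangulated C] [MonoidalCategory C]
  [SymmetricCategory C] [TensorTriangulated C] {E : Type w} [Field E] {R : Realisation C E}

/-- Morphisms from an object in degree `i` to an object in degree `j > i` vanish. -/
lemma fth_lt (hF : Fth R) {X Y : C} {i j : ℤ} (hX : R.Deg X i) (hY : R.Deg Y j) (hij : i < j)
    (f : X ⟶ Y) : f = 0 := by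
  have hX' : R.Deg (X⟦i⟧) 0 := hX.shift i 0 (by omega)
  have hY' : R.Deg (Y⟦j⟧) 0 := hY.shift j 0 (by omega)
  let e : (X⟦i⟧)⟦j - i⟧ ≅ X⟦j⟧ := (shiftFunctorAdd' C i (j - i) j (by omega)).symm.app X
  have h0 := hF.neg hX' hY' (j - i) (by omega) (e.hom ≫ f⟦j⟧')
  have h1 : f⟦j⟧' = 0 := by rw [← cancel_epi e.hom, h0, comp_zero]
  apply (shiftFunctor C j).map_injective
  rw [h1, Functor.map_zero]

/-- A morphism between objects in the same degree is determined by its realisation. -/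
lemma fth_eq (hF : Fth R) {X Y : C} {e : ℤ} (hX : R.Deg X e) (hY : R.Deg Y e)
    (f : X ⟶ Y) (hf : R.H.map (f⟦e⟧') = 0) : f = 0 := by
  have h1 : f⟦e⟧' = 0 := hF.zero (hX.shift e 0 (by omega)) (hY.shift e 0 (by omega)) _ hf
  apply (shiftFunctor C e).map_injective
  rw [h1, Functor.map_zero]

/-- Images of morphisms between objects in degree `e`. -/
lemma hasIm_shift (hI : HasIm R) {M N : C} (e : ℤ) (hM : R.Deg M e) (hN : R.Deg N e)
    (f : M ⟶ N) : ∃ (I : C) (p : M ⟶ I) (j : I ⟶ N), R.Deg I e ∧ p ≫ j = f ∧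
      Epi (R.H.map (p⟦e⟧')) ∧ Mono (R.H.map (j⟦e⟧')) := by
  obtain ⟨I, p, j, hI0, hpj, hp, hj⟩ :=
    hI (hM.shift e 0 (by omega)) (hN.shift e 0 (by omega)) (f⟦e⟧')
  let σ : I⟦-e⟧⟦e⟧ ≅ I := shiftNegShift I e
  obtain ⟨p', hp'⟩ := (shiftFunctor C e).map_surjective (p ≫ σ.inv)
  obtain ⟨j', hj'⟩ := (shiftFunctor C e).map_surjective (σ.hom ≫ j)
  refine ⟨I⟦-e⟧, p', j', hI0.shift (-e) e (by omega), ?_, ?_, ?_⟩
  · apply (shiftFunctor C e).map_injective
    rw [Functor.map_comp, hp', hj', Category.assoc, Iso.inv_hom_id_assoc, hpj]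
  · rw [hp', Functor.map_comp]
    infer_instance
  · rw [hj', Functor.map_comp]
    infer_instance

/-- The fibre of a morphism in degree `e` with surjective realisation is in degree `e`. -/
lemma deg_fibre {X Y Z : C} {f : X ⟶ Y} {g : Y ⟶ Z} {h : Z ⟶ X⟦(1 : ℤ)⟧}
    (hT : Triangle.mk f g h ∈ distTriang C) {e : ℤ} (hY : R.Deg Y e) (hZ : R.Deg Z e)
    (hg : Epi (R.H.map (g⟦e⟧'))) : R.Deg X e := by
  intro i hi
  by_cases h1 : i = e + 1
  · subst h1
    let _ := Functor.ShiftSequence.tautological R.H ℤ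
    have h5 := (R.H.homologySequence_epi_shift_map_mor₂_iff _ hT e (e + 1) rfl).1 hg
    have h4 : Mono (R.H.map (f⟦e + 1⟧')) :=
      (R.H.homologySequence_mono_shift_map_mor₁_iff _ hT e (e + 1) rfl).2 h5
    rw [IsZero.iff_id_eq_zero, ← cancel_mono (R.H.map (f⟦e + 1⟧'))]
    exact (hY _ (by omega)).eq_of_tgt _ _
  · exact hz1 R.H hT i (hY i hi) (hZ (i - 1) (by omega))

/-- The cone of a morphism in degree `e` with injective realisation is in degree `e`. -/
lemma deg_cone {X Y Z : C} {f : X ⟶ Y} {g : Y ⟶ Z} {h : Z ⟶ X⟦(1 : ℤ)⟧}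
    (hT : Triangle.mk f g h ∈ distTriang C) {e : ℤ} (hX : R.Deg X e) (hY : R.Deg Y e)
    (hf : Mono (R.H.map (f⟦e⟧'))) : R.Deg Z e := by
  intro i hi
  by_cases h1 : i + 1 = e
  · subst h1
    let _ := Functor.ShiftSequence.tautological R.H ℤ
    have h5 := (R.H.homologySequence_mono_shift_map_mor₁_iff _ hT i (i + 1) rfl).1 hf
    have h4 : Epi (R.H.map (g⟦i⟧')) :=
      (R.H.homologySequence_epi_shift_map_mor₂_iff _ hT i (i + 1) rfl).2 h5
    rw [IsZero.iff_id_eq_zero, ← cancel_epi (R.H.map (g⟦i⟧'))]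
    exact (hY _ (by omega)).eq_of_src _ _
  · exact hz3 R.H hT i (hY i hi) (hX (i + 1) h1)

variable [IsTriangulated C]

/-- The cone of a morphism `G ⟶ X`, `G` in degree `d`, `a + 1 < d ≤ b + 1`, `X` filtered. -/
lemma ext_aux (hF : Fth R) (hI : HasIm R) {a b : ℤ} {X : C} (hX : Fil R a b X) :
    ∀ (d : ℤ) (G Y : C) (u : G ⟶ X) (f : X ⟶ Y) (w : Y ⟶ G⟦(1 : ℤ)⟧),
      Triangle.mk u f w ∈ distTriang C → a + 1 < d → d ≤ b + 1 → R.Deg G d → Fil R a b Y := by
  induction hX with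
  | zero hX =>
    intro d G Y u f w hT h1 h2
    omega
  | @step b X' X Hb f0 g0 h0 hT0 hX' hH ih =>
    intro d G Y u f w hT h1 h2 hG
    rcases (by omega : d ≤ b ∨ d = b + 1 ∨ d = b + 2) with hd | rfl | rfl
    · obtain ⟨v, hv⟩ := ce2 hT0 u (fth_lt hF hG hH (by omega) _)
      obtain ⟨Y', s, t, hY'⟩ := distinguished_cocone_triangle v
      have O := Triangulated.someOctahedron hv.symm hY' hT0 hT
      exact Fil.step _ _ _ O.mem (ih d G Y' v s t hY' h1 (by omega) hG) hH
    · obtain ⟨I, p, j, hI0, hpj, hp, hj⟩ := hasIm_shift hI (b + 1) hG hH (u ≫ g0)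
      obtain ⟨K, k, dd, hK⟩ := distinguished_cocone_triangle₁ p
      have hK0 : R.Deg K (b + 1) := deg_fibre hK hG hI0 hp
      obtain ⟨v, hv⟩ := ce2 hT0 (k ≫ u) (by
        rw [Category.assoc, ← hpj, ← Category.assoc, comp12 hK, zero_comp])
      obtain ⟨Y', s, t, hY'⟩ := distinguished_cocone_triangle v
      obtain ⟨Y₁, s1, t1, hY₁⟩ := distinguished_cocone_triangle (k ≫ u)
      have O1 := Triangulated.someOctahedron hv.symm hY' hT0 hY₁
      have O2 := Triangulated.someOctahedron rfl hK hT hY₁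
      obtain ⟨Q, s3, t3, hQ⟩ := distinguished_cocone_triangle (O1.m₁ ≫ O2.m₃)
      have O3 := Triangulated.someOctahedron rfl O1.mem (rotD O2.mem) hQ
      have hq : p ≫ O2.m₁ ≫ O1.m₃ = p ≫ j := by
        rw [← Category.assoc, O2.comm₁, Category.assoc, O1.comm₃, hpj]
      have hq2 : R.H.map ((O2.m₁ ≫ O1.m₃)⟦b + 1⟧') = R.H.map (j⟦b + 1⟧') := by
        rw [← cancel_epi (R.H.map (p⟦b + 1⟧')), ← Functor.map_comp, ← Functor.map_comp, hq,
          Functor.map_comp, Functor.map_comp]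
      have hT3 : Triangle.mk (O2.m₁ ≫ O1.m₃) O3.m₁ O3.m₃ ∈ distTriang C := by
        rw [rotate_distinguished_triangle]
        have h := O3.mem
        rw [Preadditive.neg_comp, ← Functor.map_comp] at h
        exact h
      have hQ0 : R.Deg Q (b + 1) := deg_cone hT3 hI0 hH (by rw [hq2]; exact hj)
      exact Fil.step _ _ _ hQ (ih (b + 1) K Y' v s t hY' h1 le_rfl hK0) hQ0
    · obtain ⟨W, s, t, hW⟩ := distinguished_cocone_triangle (f0 ≫ f)
      have O := Triangulated.someOctahedron rfl hT0 (rotD hT) hW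
      have hG1 : R.Deg (G⟦(1 : ℤ)⟧) (b + 1) := hG.shift 1 (b + 1) (by omega)
      have hW0 : R.Deg W (b + 1) := fun i hi => hz2 R.H O.mem i (hH i hi) (hG1 i hi)
      exact Fil.step _ _ _ hW hX' hW0

end

/-- Piece T1. -/
theorem t_T1 : S_T1.{v, u, w} := by
  intro C _ _ _ _ _ _ _ _ _ _ _ E _ R hF hI a b c X Y H f g h hT hX hac hcb hH
  exact ext_aux hF hI hX (c + 1) (H⟦(-1 : ℤ)⟧) Y _ _ _ (inv_rot_of_distTriang _ hT) (by omega)
    (by omega) (hH.shift (-1) (c + 1) (by omega))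

end Run7.h824.TC
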