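import Pool.Agent.Run7.h985.TC.Stm3

/-!
# Sorting of iterated extensions (piece W1 of project TC)
-/

set_option autoImplicit false
set_option linter.unusedSectionVars false
set_option linter.unusedSimpArgs false
set_option backward.isDefEq.respectTransparency false
set_option backward.defeqAttrib.useBackward true

open CategoryTheory Limits MonoidalCategory Pretriangulated Triangulated

namespace Run7.h824.TC

open Pool.Agent.Y116.MT Pool.Agent.V1178.MT Run7.h822.MT Run7.h985.TC

universe v u w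

section

variable {C : Type u} [Category.{v} C] [Preadditive C] [HasZeroObject C] [HasShift C ℤ]
  [∀ n : ℤ, (shiftFunctor C n).Additive] [Pretriangulated C]

/-- The objects in degree `i`. -/
def UU (U : ObjectProperty C) (i : ℤ) : ObjectProperty C := fun X => U (X⟦i⟧)

/-- Two shifts. -/
noncomputable def sh2 (X : C) (a b c : ℤ) (h : a + b = c) : X⟦a⟧⟦b⟧ ≅ X⟦c⟧ :=
  (shiftFunctorAdd' C a b c h).symm.app X

/-- A word with one more letter as an extension. -/
lemma wd_cons {U : ObjectProperty C} {i : ℤ} {l : List ℤ} {X : C}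
    (h : ObjectProperty.extensionProduct (UU U i) (Wd U l) X) : Wd U (i :: l) X := by
  obtain ⟨H, X', f, g, k, hT, hH, hX'⟩ := h
  exact .cons f g k hT hH hX'

end

section

variable {C : Type u} [Category.{v} C] [Preadditive C] [HasZeroObject C] [HasShift C ℤ]
  [∀ n : ℤ, (shiftFunctor C n).Additive] [Pretriangulated C] [MonoidalCategory C]
  [SymmetricCategory C] [TensorTriangulated C] {E : Type w} [Field E] {R : Realisation C E}
  {U : ObjectProperty C}

/-- Morphisms from degree `i` to degree `j > i` vanish. -/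
lemma fthU_lt (hF : FthU R U) {X Y : C} {i j : ℤ} (hX : U (X⟦i⟧)) (hY : U (Y⟦j⟧)) (hij : i < j)
    (f : X ⟶ Y) : f = 0 := by
  let e : (X⟦i⟧)⟦j - i⟧ ≅ X⟦j⟧ := sh2 X i (j - i) j (by omega)
  have h0 := hF.neg hX hY (j - i) (by omega) (e.hom ≫ f⟦j⟧')
  have h1 : f⟦j⟧' = 0 := by rw [← cancel_epi e.hom, h0, comp_zero]
  apply (shiftFunctor C j).map_injective
  rw [h1, Functor.map_zero]

variable (hiso : ∀ X Y : C, U X → Nonempty (X ≅ Y) → U Y)

include hiso in
/-- Exchange of two neighbours in the wrong order. -/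
lemma swap (hF : FthU R U) (hKQ : HasKQ U) {i j : ℤ} (hji : j < i) {Y : C}
    (h : ObjectProperty.extensionProduct (UU U i) (UU U j) Y) :
    ObjectProperty.extensionProduct (UU U j) (UU U i) Y := by
  obtain ⟨A, B, f, g, c, hT, hA, hB⟩ := h
  by_cases h1 : i = j + 1
  · subst h1
    have hM : U (B⟦j⟧) := hB
    have hN : U (A⟦(1 : ℤ)⟧⟦j⟧) := hiso _ _ hA ⟨(sh2 A 1 j (j + 1) (by ring)).symm⟩
    obtain ⟨K, Q, a, b, d, hT2, hK, hQ⟩ :=
      hKQ _ _ _ (Triangle.shift_distinguished _ (rotD (rotD hT)) j) hM hN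
    have e : Y⟦(1 : ℤ)⟧⟦j⟧⟦-(j + 1)⟧ ≅ Y :=
      (shiftFunctor C (-(j + 1))).mapIso (sh2 Y 1 j (j + 1) (by ring)) ≪≫
        sh2 Y (j + 1) (-(j + 1)) 0 (by ring) ≪≫ (shiftFunctorZero C ℤ).app Y
    refine ObjectProperty.prop_of_iso _ e ?_
    refine ⟨_, _, _, _, _, Triangle.shift_distinguished _ hT2 (-(j + 1)), ?_, ?_⟩
    · refine hiso _ _ hK ⟨?_⟩
      exact ((shiftFunctor C j).mapIso (sh2 K 1 (-(j + 1)) (-j) (by ring)) ≪≫
        sh2 K (-j) j 0 (by ring) ≪≫ (shiftFunctorZero C ℤ).app K).symm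
    · refine hiso _ _ hQ ⟨?_⟩
      exact (sh2 Q (-(j + 1)) (j + 1) 0 (by ring) ≪≫ (shiftFunctorZero C ℤ).app Q).symm
  · have hN : U (A⟦(1 : ℤ)⟧⟦i - 1⟧) := hiso _ _ hA ⟨(sh2 A 1 (i - 1) i (by ring)).symm⟩
    have hc : c = 0 := fthU_lt hF (i := j) (j := i - 1) hB hN (by omega) c
    obtain ⟨e, -, -⟩ := exists_iso_binaryBiproduct_of_distTriang _ hT hc
    refine ObjectProperty.prop_of_iso _ (biprod.braiding B A ≪≫ e.symm) ?_
    exact ⟨B, A, _, _, _, binaryBiproductTriangle_distinguished B A, hB, hA⟩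

include hiso in
/-- Insertion. -/
lemma insert_wd [IsTriangulated C] (hF : FthU R U) (hKQ : HasKQ U) {l : List ℤ} {X' : C}
    (hX' : Wd U l X') : ∀ (i : ℤ) (H X : C) (f : H ⟶ X) (g : X ⟶ X') (h : X' ⟶ H⟦(1 : ℤ)⟧),
      Triangle.mk f g h ∈ distTriang C → U (H⟦i⟧) →
      Wd U (l.orderedInsert (· ≤ ·) i) X := by
  induction hX' with
  | nil hX' =>
    intro i H X f g h hT hH
    exact .cons f g h hT hH (.nil hX')
  | @cons j l H' X' X'' f' g' h' hT' hH' hX'' ih =>
    intro i H X f g h hT hH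
    by_cases hij : i ≤ j
    · rw [List.orderedInsert_cons_of_le _ _ hij]
      exact .cons f g h hT hH (.cons f' g' h' hT' hH' hX'')
    · rw [List.orderedInsert_cons, if_neg hij]
      have h1 : ObjectProperty.extensionProduct (UU U i)
          (ObjectProperty.extensionProduct (UU U j) (fun W => W = X'')) X :=
        ⟨H, X', f, g, h, hT, hH, ⟨H', X'', f', g', h', hT', hH', rfl⟩⟩
      rw [← ObjectProperty.extensionProduct_assoc] at h1
      have h2 : ObjectProperty.extensionProduct (ObjectProperty.extensionProduct (UU U j) (UU U i))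
          (fun W => W = X'') X :=
        ObjectProperty.monotone_extensionProduct_left _
          (fun Y hY => swap hiso hF hKQ (not_le.1 hij) hY) _ h1
      rw [ObjectProperty.extensionProduct_assoc] at h2
      refine wd_cons (ObjectProperty.monotone_extensionProduct_right _ ?_ _ h2)
      rintro X₁ ⟨A, B, a, b, c, hT1, hA, hB⟩
      subst hB
      exact ih i A X₁ a b c hT1 hA

include hiso in
lemma sort_wd [IsTriangulated C] (hF : FthU R U) (hKQ : HasKQ U) {l : List ℤ} {X : C}
    (hX : Wd U l X) : Wd U (l.insertionSort (· ≤ ·)) X := by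
  induction hX with
  | nil hX => exact .nil hX
  | cons f g h hT hH hX' ih =>
    rw [List.insertionSort_cons]
    exact insert_wd hiso hF hKQ ih _ _ _ f g h hT hH

end

/-- Piece W1. -/
theorem t_W1 : S_W1.{v, u, w} := by
  intro C _ _ _ _ _ _ _ _ _ _ _ E _ R U hF hiso hKQ l X hX
  exact ⟨l.insertionSort (· ≤ ·), List.pairwise_insertionSort (· ≤ ·) l,
    sort_wd hiso hF hKQ hX⟩

end Run7.h824.TC
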