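import Pool.Agent.Run7.h824.TC.W1

/-!
# Every object is a retract of an iterated extension (piece W2 of project TC)

After the file T2 of helper650.
-/

set_option autoImplicit false
set_option linter.unusedSectionVars false
set_option linter.unusedSimpArgs false
set_option backward.isDefEq.respectTransparency false
set_option backward.defeqAttrib.useBackward true

open CategoryTheory Limits MonoidalCategory Pretriangulated Triangulated ZeroObject

namespace Run7.h824.TC

open Pool.Agent.Y116.MT Pool.Agent.V1178.MT Run7.h822.MT Run7.h985.TC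

universe v u w

section

variable {C : Type u} [Category.{v} C] [Preadditive C] [HasZeroObject C] [HasShift C ℤ]
  [∀ n : ℤ, (shiftFunctor C n).Additive] [Pretriangulated C] {U : ObjectProperty C}

lemma wd_iso {l : List ℤ} {X Y : C} (h : Wd U l X) (e : X ≅ Y) : Wd U l Y := by
  cases h with
  | nil hX => exact .nil (hX.of_iso e.symm)
  | cons f g h hT hH hX' =>
    refine .cons (f ≫ e.hom) (e.inv ≫ g) h ?_ hH hX'
    refine isomorphic_distinguished _ hT _ ?_
    exact Triangle.isoMk _ _ (Iso.refl _) e.symm (Iso.refl _) (by simp) (by simp) (by simp)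

variable (hiso : ∀ X Y : C, U X → Nonempty (X ≅ Y) → U Y)

include hiso in
lemma wd_shift {l : List ℤ} {X : C} (h : Wd U l X) (n : ℤ) :
    Wd U (l.map fun i => i - n) (X⟦n⟧) := by
  induction h with
  | nil hX => exact .nil ((shiftFunctor C n).map_isZero hX)
  | @cons i l H X X' f g h hT hH hX' ih =>
    exact .cons _ _ _ (Triangle.shift_distinguished _ hT n)
      (hiso _ _ hH ⟨(sh2 H n (i - n) i (by ring)).symm⟩) ih

include hiso in
lemma wd_single {X : C} (hX : U X) : Wd U [0] X :=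
  .cons (𝟙 X) 0 0 (contractible_distinguished X)
    (hiso _ _ hX ⟨((shiftFunctorZero C ℤ).app X).symm⟩) (.nil (isZero_zero C))

/-- Extensions of iterated extensions. -/
lemma wd_ext [IsTriangulated C] {l : List ℤ} {X : C} (hX : Wd U l X) :
    ∀ (l' : List ℤ) (Y Z : C) (f : X ⟶ Y) (g : Y ⟶ Z) (h : Z ⟶ X⟦(1 : ℤ)⟧),
      Triangle.mk f g h ∈ distTriang C → Wd U l' Z → Wd U (l ++ l') Y := by
  induction hX with
  | nil hX =>
    intro l' Y Z f g h hT hZ
    have h1 : IsIso g := (Triangle.isZero₁_iff_isIso₂ _ hT).1 hX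
    exact wd_iso hZ (asIso g).symm
  | @cons i l H X X' f' g' h' hT' hH hX' ih =>
    intro l' Y Z f g h hT hZ
    have h1 : ObjectProperty.extensionProduct
        (ObjectProperty.extensionProduct (UU U i) (fun W => W = X')) (fun W => W = Z) Y :=
      ⟨X, Z, f, g, h, hT, ⟨H, X', f', g', h', hT', hH, rfl⟩, rfl⟩
    rw [ObjectProperty.extensionProduct_assoc] at h1
    refine wd_cons (l := l ++ l') (ObjectProperty.monotone_extensionProduct_right _ ?_ _ h1)
    rintro Y' ⟨A, B, a, b, c, hT1, hA, hB⟩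
    subst hA
    subst hB
    exact ih l' Y' _ a b c hT1 hZ

end

/-- Piece W2. -/
theorem t_W2 : S_W2.{v, u} := by
  intro C _ _ _ _ _ _ _ U hiso hG
  let Q : ObjectProperty C := fun X => ∃ l : List ℤ, Wd U l X
  have key : ∀ X, Q.retractClosure X := by
    apply hG
    · refine ⟨?_, ?_, ?_, ?_⟩
      · intro X hX
        exact ObjectProperty.le_retractClosure Q _ ⟨[], .nil hX⟩
      · rintro X n ⟨X', ⟨l, hX'⟩, ⟨⟨i, r, h⟩⟩⟩
        refine ⟨X'⟦n⟧, ⟨_, wd_shift hiso hX' n⟩, ⟨⟨i⟦n⟧', r⟦n⟧', ?_⟩⟩⟩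
        rw [← Functor.map_comp, h, CategoryTheory.Functor.map_id]
      · intro X Y Z f g h hT hX hZ
        obtain ⟨Y', hY', hr⟩ := ObjectProperty.extensionProduct_retractClosure_retractClosure_le
          Q Q Y ⟨X, Z, f, g, h, hT, hX, hZ⟩
        obtain ⟨X1, Z1, f1, g1, h1, hT1', ⟨l, hX1⟩, ⟨l', hZ1⟩⟩ := hY'
        exact ⟨Y', ⟨l ++ l', wd_ext hX1 l' _ _ f1 g1 h1 hT1' hZ1⟩, hr⟩
      · rintro X Y i r h ⟨X', hX', ⟨⟨i', r', h'⟩⟩⟩
        refine ⟨X', hX', ⟨⟨i ≫ i', r' ≫ r, ?_⟩⟩⟩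
        rw [Category.assoc, reassoc_of% h', h]
    · intro X hX
      exact ObjectProperty.le_retractClosure Q _ ⟨[0], wd_single hiso hX⟩
  intro X
  obtain ⟨X', ⟨l, hX'⟩, ⟨⟨i, r, h⟩⟩⟩ := key X
  exact ⟨l, X', i, r, h, hX'⟩

end Run7.h824.TC
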