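import Pool.Agent.Run7.h985.TC.Stm2

/-!
# Tensor products with an invertible object in one degree (for the piece CK2 of project TC)
-/

set_option autoImplicit false
set_option linter.unusedSectionVars false
set_option linter.unusedSimpArgs false
set_option backward.isDefEq.respectTransparency false
set_option backward.defeqAttrib.useBackward true

open CategoryTheory Limits MonoidalCategory Pretriangulated Triangulated

namespace Run7.h824.TC

open Pool.Agent.Y116.MT Pool.Agent.V1178.MT Run7.h822.MT Run7.h985.TC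
open Functor.LaxMonoidal

universe v u w v' u'

section Arrow

variable {D : Type u'} [Category.{v'} D]

/-- The morphisms `f` and `g` are isomorphic. -/
def AI {X Y X' Y' : D} (f : X ⟶ Y) (g : X' ⟶ Y') : Prop :=
  ∃ (a : X ≅ X') (b : Y ≅ Y'), f ≫ b.hom = a.hom ≫ g

lemma AI.symm {X Y X' Y' : D} {f : X ⟶ Y} {g : X' ⟶ Y'} (h : AI f g) : AI g f := by
  obtain ⟨a, b, h⟩ := h
  refine ⟨a.symm, b.symm, ?_⟩
  rw [Iso.symm_hom, Iso.symm_hom, Iso.comp_inv_eq, Category.assoc, h, Iso.inv_hom_id_assoc]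

lemma AI.trans {X Y X' Y' X'' Y'' : D} {f : X ⟶ Y} {g : X' ⟶ Y'} {k : X'' ⟶ Y''}
    (h : AI f g) (h' : AI g k) : AI f k := by
  obtain ⟨a, b, h⟩ := h
  obtain ⟨a', b', h'⟩ := h'
  refine ⟨a ≪≫ a', b ≪≫ b', ?_⟩
  rw [Iso.trans_hom, Iso.trans_hom, reassoc_of% h, h', Category.assoc]

lemma AI.map {D' : Type*} [Category D'] (F : D ⥤ D') {X Y X' Y' : D} {f : X ⟶ Y} {g : X' ⟶ Y'}
    (h : AI f g) : AI (F.map f) (F.map g) := by
  obtain ⟨a, b, h⟩ := h
  refine ⟨F.mapIso a, F.mapIso b, ?_⟩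
  rw [Functor.mapIso_hom, Functor.mapIso_hom, ← Functor.map_comp, ← Functor.map_comp, h]

lemma AI.isIso {X Y X' Y' : D} {f : X ⟶ Y} {g : X' ⟶ Y'} (h : AI f g) (hf : IsIso f) :
    IsIso g := by
  obtain ⟨a, b, h⟩ := h
  have h1 : IsIso (a.hom ≫ g) := by
    rw [← h]
    infer_instance
  exact IsIso.of_isIso_comp_left a.hom g

end Arrow

section

variable {C : Type u} [Category.{v} C] [MonoidalCategory C]

/-- The map on the twists. -/
def twMap (T : C) {X Y : C} (f : X ⟶ Y) : ∀ k : ℕ, twist T X k ⟶ twist T Y k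
  | 0 => f
  | k + 1 => twMap T f k ▷ T

lemma twMap_comp (T : C) {X Y Z : C} (f : X ⟶ Y) (g : Y ⟶ Z) (k : ℕ) :
    twMap T (f ≫ g) k = twMap T f k ≫ twMap T g k := by
  induction k with
  | zero => rfl
  | succ k ih => simp only [twMap, ih, comp_whiskerRight]

lemma twMap_id (T X : C) (k : ℕ) : twMap T (𝟙 X) k = 𝟙 _ := by
  induction k with
  | zero => rfl
  | succ k ih =>
    simp only [twMap, ih, id_whiskerRight]
    rfl

variable [SymmetricCategory C]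

/-- Tensor products with an invertible object are an equivalence. -/
lemma tensorRight_equiv {T T' : C} (e : T ⊗ T' ≅ 𝟙_ C) : (tensorRight T).IsEquivalence := by
  let e' : T' ⊗ T ≅ 𝟙_ C := β_ T' T ≪≫ e
  let u (A B : C) (e : A ⊗ B ≅ 𝟙_ C) : tensorRight A ⋙ tensorRight B ≅ 𝟭 C :=
    (tensorRightTensor A B).symm ≪≫ (tensoringRight C).mapIso e ≪≫ rightUnitorNatIso C
  exact (CategoryTheory.Equivalence.mk (tensorRight T) (tensorRight T') (u T T' e).symm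
    (u T' T e')).isEquivalence_functor

lemma twMap_inj {T T' : C} (e : T ⊗ T' ≅ 𝟙_ C) {X Y : C} (k : ℕ) (f g : X ⟶ Y)
    (h : twMap T f k = twMap T g k) : f = g := by
  have := tensorRight_equiv e
  induction k with
  | zero => exact h
  | succ k ih => exact ih ((tensorRight T).map_injective h)

lemma twMap_surj {T T' : C} (e : T ⊗ T' ≅ 𝟙_ C) {X Y : C} (k : ℕ)
    (h : twist T X k ⟶ twist T Y k) : ∃ f : X ⟶ Y, twMap T f k = h := by
  have := tensorRight_equiv e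
  induction k with
  | zero => exact ⟨h, rfl⟩
  | succ k ih =>
    obtain ⟨g, hg⟩ := (tensorRight T).map_surjective h
    obtain ⟨f, hf⟩ := ih g
    refine ⟨f, ?_⟩
    rw [← hg, ← hf]
    rfl

end

section

variable {C : Type u} [Category.{v} C] [Preadditive C] [HasZeroObject C] [HasShift C ℤ]
  [∀ n : ℤ, (shiftFunctor C n).Additive] [Pretriangulated C] [MonoidalCategory C]
  [SymmetricCategory C] [TensorTriangulated C] [MonoidalPreadditive C]
  {E : Type w} [Field E] {R : Realisation C E}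

lemma ai_shift {X Y : C} (f : X ⟶ Y) (a b c : ℤ) (h : a + b = c) :
    AI ((f⟦a⟧')⟦b⟧') (f⟦c⟧') :=
  ⟨(shiftFunctorAdd' C a b c h).symm.app X, (shiftFunctorAdd' C a b c h).symm.app Y,
    (shiftFunctorAdd' C a b c h).inv.naturality f⟩

lemma ai_whisker {X Y : C} (f : X ⟶ Y) {T T' : C} (e : T ≅ T') : AI (f ▷ T) (f ▷ T') :=
  ⟨whiskerLeftIso X e, whiskerLeftIso Y e, (whisker_exchange f e.hom).symm⟩

lemma ai_braid {X Y : C} (f : X ⟶ Y) (P : C) : AI (f ▷ P) (P ◁ f) :=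
  ⟨β_ X P, β_ Y P, BraidedCategory.braiding_naturality_left f P⟩

lemma ai_right {X Y : C} (f : X ⟶ Y) (P : C) (n : ℤ) : AI (f ▷ (P⟦n⟧)) ((f ▷ P)⟦n⟧') :=
  ⟨rShift X P n, rShift Y P n, rShift_natural_left f P n⟩

lemma ai_left {X Y : C} (f : X ⟶ Y) (P : C) (n : ℤ) : AI (P ◁ (f⟦n⟧')) ((P ◁ f)⟦n⟧') :=
  ⟨rShift P X n, rShift P Y n, rShift_natural_right P f n⟩

/-- The tensor product with `T` in degree `a` shifts the degrees by `a`. -/
lemma ai_tensor {T : C} (a : ℤ) {X Y : C} (f : X ⟶ Y) (i j : ℤ) (hj : i - a = j) :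
    AI ((f ▷ T)⟦i⟧') ((T⟦a⟧) ◁ (f⟦j⟧')) := by
  have h1 : AI ((f ▷ T)⟦i⟧') ((f ▷ ((T⟦a⟧)⟦-a⟧))⟦i⟧') :=
    (ai_whisker f (shiftShiftNeg T a).symm).map (shiftFunctor C i)
  have h2 : AI ((f ▷ ((T⟦a⟧)⟦-a⟧))⟦i⟧') (((f ▷ (T⟦a⟧))⟦-a⟧')⟦i⟧') :=
    (ai_right f (T⟦a⟧) (-a)).map (shiftFunctor C i)
  have h3 : AI (((f ▷ (T⟦a⟧))⟦-a⟧')⟦i⟧') ((f ▷ (T⟦a⟧))⟦j⟧') :=
    ai_shift _ (-a) i j (by omega)
  have h4 : AI ((f ▷ (T⟦a⟧))⟦j⟧') (((T⟦a⟧) ◁ f)⟦j⟧') := (ai_braid f (T⟦a⟧)).map _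
  exact h1.trans (h2.trans (h3.trans (h4.trans (ai_left f (T⟦a⟧) j).symm)))

lemma iso_tensor {T : C} {a : ℤ} (hT : R.Deg T a) {X Y : C} (f : X ⟶ Y) (i j : ℤ)
    (hj : i - a = j) (hf : IsIso (R.H.map (f⟦j⟧'))) : IsIso (R.H.map ((f ▷ T)⟦i⟧')) := by
  have hP : R.Deg (T⟦a⟧) 0 := hT.shift a 0 (by omega)
  have h1 := hP.isIso_mu (X⟦j⟧)
  have h2 := hP.isIso_mu (Y⟦j⟧)
  have h3 : IsIso (R.H.map ((T⟦a⟧) ◁ (f⟦j⟧'))) := by
    have h4 : IsIso (μ R.H (T⟦a⟧) (X⟦j⟧) ≫ R.H.map ((T⟦a⟧) ◁ (f⟦j⟧'))) := by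
      rw [← μ_natural_right]
      infer_instance
    exact IsIso.of_isIso_comp_left (μ R.H (T⟦a⟧) (X⟦j⟧)) _
  exact ((ai_tensor a f i j hj).symm.map R.H).isIso h3

/-- `H` in degree `i` of the `k`-th twist is `H` in degree `i + 2 k`. -/
lemma iso_twMap {T : C} (hT : R.Deg T (-2)) {X Y : C} (f : X ⟶ Y) (k : ℕ) : ∀ i j : ℤ,
    i + 2 * k = j → IsIso (R.H.map (f⟦j⟧')) → IsIso (R.H.map ((twMap T f k)⟦i⟧')) := by
  induction k with
  | zero =>
    intro i j hj hf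
    obtain rfl : i = j := by simpa using hj
    exact hf
  | succ k ih =>
    intro i j hj hf
    exact iso_tensor hT (twMap T f k) i (i + 2) (by ring)
      (ih (i + 2) j (by rw [← hj]; push_cast; ring) hf)

lemma twMap_zero (T X Y : C) (k : ℕ) : twMap T (0 : X ⟶ Y) k = 0 := by
  induction k with
  | zero => rfl
  | succ k ih =>
    simp only [twMap, ih, MonoidalPreadditive.zero_whiskerRight]

lemma zero_twist {T : C} (hT : R.Deg T (-2)) {X : C} (k : ℕ) (i j : ℤ) (h : i + 2 * k = j)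
    (hX : IsZero (R.H.obj (X⟦j⟧))) : IsZero (R.H.obj ((twist T X k)⟦i⟧)) := by
  have h1 := iso_twMap hT (0 : X ⟶ X) k i j h ⟨0, hX.eq_of_src _ _, hX.eq_of_src _ _⟩
  rw [twMap_zero, Functor.map_zero, Functor.map_zero] at h1
  rw [IsZero.iff_id_eq_zero, ← IsIso.hom_inv_id (0 : R.H.obj ((twist T X k)⟦i⟧) ⟶
    R.H.obj ((twist T X k)⟦i⟧)), zero_comp]

lemma deg_twist {T : C} (hT : R.Deg T (-2)) {X : C} {q : ℤ} (hX : R.Deg X q) (k : ℕ) (p : ℤ)
    (h : p + 2 * k = q) : R.Deg (twist T X k) p := fun i hi =>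
  zero_twist hT k i (i + 2 * k) rfl (hX _ (by omega))

end

end Run7.h824.TC
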